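import Pool.Agent.Run7.h327.Tr.Tree

/-!
# An expanding Thurston map without an invariant tree

The map is the Lattès map of degree two that comes from multiplication by `(1 + √-7) / 2`. Here it
is obtained from the projection

`pr (x + i y) = (cos y, cos x, sin x sin y) / ‖(cos y, cos x, sin x sin y)‖`

of the plane to the sphere, whose fibres are the orbits of the group generated by `2πℤ²` and `-1`,
and from the linear map `A (x, y) = (-2y, x + y)` of determinant two: `f (pr z) = pr (A z)`. Its
postcritical set consists of the four points `(±1, ±1, 0) / √2`.

The double covers of the sphere branched over `{(1, 1, 0), (-1, -1, 0)}`, over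
`{(1, -1, 0), (-1, 1, 0)}` and over all four points are all `f`-invariant. If `T` is closed and
connected, contains the postcritical set and has connected complement `U`, these covers are trivial
over `U`. If moreover `f (T) ⊆ T`, then `f⁻¹ (U) ⊆ U`, and each of the three covers compares the
two sheets of `f⁻¹ (U) → U` by a sign; the product of the three signs is one. So one of them is
`+1`, and then the backward orbits in the corresponding cover stay on one of the two sheets over
`U`, although they are dense.
-/

namespace Pool.Agent.Results.MP_cb5d8b_an.NoInvariantTree

open Pool.Agent.Run7.h327.Th Pool.Agent.Run7.h327.Tr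

/-- There is an expanding Thurston map `f` of the sphere (of degree two) such that no tree that
contains the postcritical set of `f` is mapped into itself by `f`; indeed no closed connected set
with connected complement that contains the postcritical set is mapped into itself. -/
theorem result : ∃ f : S2 → S2, IsExpandingThurstonMap f ∧ HasDegree f 2 ∧
    (∀ T : Set S2, IsTree T → post f ⊆ T → ¬ f '' T ⊆ T) ∧
    ∀ T : Set S2, IsClosed T → IsConnected T → IsConnected Tᶜ → post f ⊆ T → ¬ f '' T ⊆ T :=
  main

end Pool.Agent.Results.MP_cb5d8b_an.NoInvariantTree
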